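import Mathlib.Combinatorics.SimpleGraph.Matching
import Mathlib.Combinatorics.SimpleGraph.DegreeSum
import Mathlib.Algebra.Order.Chebyshev
import Mathlib.Tactic

/-!
# Edge count versus maximum forcing number

For a graph `G` on `2 n` vertices with a perfect matching, `e(G) ≥ n ^ 2 / (n - F(G))`,
where `F(G)` is the maximum forcing number.
-/

namespace Pool.Agent.Results.MP_f5b231_co.EdgeBound

open Finset

variable {V : Type*} {G : SimpleGraph V}

/-- `S` is a forcing set of the perfect matching `M`: `S ⊆ M` and `M` is the only perfect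
matching of `G` that contains `S`. -/
def IsForcing (M : G.Subgraph) (S : Finset (Sym2 V)) : Prop :=
  (S : Set (Sym2 V)) ⊆ M.edgeSet ∧
    ∀ M' : G.Subgraph, M'.IsPerfectMatching → (S : Set (Sym2 V)) ⊆ M'.edgeSet → M' = M

/-- The forcing number of `M`: the smallest size of a forcing set. -/
noncomputable def forcingNumber (M : G.Subgraph) : ℕ :=
  sInf {k | ∃ S : Finset (Sym2 V), IsForcing M S ∧ S.card = k}

/-- The maximum forcing number of `G`. -/
noncomputable def maxForcing (G : SimpleGraph V) : ℕ :=
  sSup {k | ∃ M : G.Subgraph, M.IsPerfectMatching ∧ forcingNumber M = k}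

section digraph

variable {ι : Type*} [DecidableEq ι]

/-- A finite set that can be emptied by successively removing an element without
out-neighbours in the rest. -/
inductive Good (d : ι → Finset ι) : Finset ι → Prop
  | empty : Good d ∅
  | insert (v : ι) (T : Finset ι) (hv : v ∉ T) (hd : Disjoint (d v) T) (hT : Good d T) :
      Good d (insert v T)

theorem exists_good (d : ι → Finset ι) (R : Finset ι) :
    ∃ T ⊆ R, Good d T ∧ ∑ i ∈ R, (1 : ℝ) / (1 + ((d i ∩ R).card : ℝ)) ≤ T.card := by
  induction R using Finset.strongInduction with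
  | H R ih =>
    by_cases hR : R.Nonempty
    · obtain ⟨v, hvR, hmin⟩ := R.exists_min_image (fun i => (d i ∩ R).card) hR
      set R' := R \ (insert v (d v)) with hR'
      have hss : R' ⊂ R := by
        refine ⟨sdiff_subset, fun h => ?_⟩
        have := h hvR
        simp [hR'] at this
      obtain ⟨T', hT'R', hgood, hsum⟩ := ih R' hss
      have hvT' : v ∉ T' := fun h => by
        have := hT'R' h
        simp [hR'] at this
      have hdis : Disjoint (d v) T' := by
        rw [Finset.disjoint_left]
        intro a ha haT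
        have := hT'R' haT
        simp [hR', ha] at this
      refine ⟨insert v T', ?_, Good.insert v T' hvT' hdis hgood, ?_⟩
      · intro a ha
        rcases Finset.mem_insert.1 ha with rfl | ha
        · exact hvR
        · exact (Finset.sdiff_subset) (hT'R' ha)
      · rw [Finset.card_insert_of_notMem hvT']
        have hsplit : R = R' ∪ (R ∩ insert v (d v)) := by
          rw [hR']; ext a; simp only [mem_union, mem_sdiff, mem_inter]; tauto
        have hdisj : Disjoint R' (R ∩ insert v (d v)) := by
          rw [hR', Finset.disjoint_left]; intro a; simp only [mem_sdiff, mem_inter]; tauto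
        have h1 : ∑ i ∈ R, (1 : ℝ) / (1 + ((d i ∩ R).card : ℝ))
            = ∑ i ∈ R', (1 : ℝ) / (1 + ((d i ∩ R).card : ℝ))
              + ∑ i ∈ R ∩ insert v (d v), (1 : ℝ) / (1 + ((d i ∩ R).card : ℝ)) := by
          conv_lhs => rw [show (∑ i ∈ R, (1 : ℝ) / (1 + ((d i ∩ R).card : ℝ))) =
            ∑ i ∈ R' ∪ (R ∩ insert v (d v)), (1 : ℝ) / (1 + ((d i ∩ R).card : ℝ)) by rw [← hsplit]]
          rw [Finset.sum_union hdisj]
        rw [h1]
        have h2 : ∑ i ∈ R', (1 : ℝ) / (1 + ((d i ∩ R).card : ℝ))
            ≤ ∑ i ∈ R', (1 : ℝ) / (1 + ((d i ∩ R').card : ℝ)) := by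
          apply Finset.sum_le_sum
          intro i _
          apply one_div_le_one_div_of_le
          · exact add_pos_of_pos_of_nonneg one_pos (Nat.cast_nonneg _)
          · have : (d i ∩ R').card ≤ (d i ∩ R).card :=
              Finset.card_le_card (Finset.inter_subset_inter_left sdiff_subset)
            have : ((d i ∩ R').card : ℝ) ≤ (d i ∩ R).card := by exact_mod_cast this
            linarith
        have h3 : ∑ i ∈ R ∩ insert v (d v), (1 : ℝ) / (1 + ((d i ∩ R).card : ℝ)) ≤ 1 := by
          have hb : ∀ i ∈ R ∩ insert v (d v), (1 : ℝ) / (1 + ((d i ∩ R).card : ℝ))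
              ≤ 1 / (1 + ((d v ∩ R).card : ℝ)) := by
            intro i hi
            apply one_div_le_one_div_of_le
            · exact add_pos_of_pos_of_nonneg one_pos (Nat.cast_nonneg _)
            · have : (d v ∩ R).card ≤ (d i ∩ R).card := hmin i (Finset.mem_inter.1 hi).1
              have : ((d v ∩ R).card : ℝ) ≤ (d i ∩ R).card := by exact_mod_cast this
              linarith
          refine (Finset.sum_le_card_nsmul _ _ _ hb).trans ?_
          have hc : (R ∩ insert v (d v)).card ≤ 1 + (d v ∩ R).card := by
            have : R ∩ insert v (d v) ⊆ insert v (d v ∩ R) := by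
              intro a; simp only [mem_inter, mem_insert]; tauto
            refine (Finset.card_le_card this).trans ?_
            have := Finset.card_insert_le v (d v ∩ R)
            omega
          have hc' : ((R ∩ insert v (d v)).card : ℝ) ≤ 1 + ((d v ∩ R).card : ℝ) := by
            exact_mod_cast hc
          rw [nsmul_eq_mul, mul_one_div, div_le_one (add_pos_of_pos_of_nonneg one_pos (Nat.cast_nonneg _))]
          exact hc'
        push_cast
        linarith
    · rw [Finset.not_nonempty_iff_eq_empty] at hR
      subst hR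
      exact ⟨∅, subset_rfl, Good.empty, by simp⟩

end digraph


section main

variable [Fintype V] [DecidableEq V]

/-- Key lemma: a perfect matching `M` with partner function `m`. -/
theorem exists_forcing (G : SimpleGraph V) [DecidableRel G.Adj] (M : G.Subgraph)
    (hM : M.IsPerfectMatching) (n : ℕ) (hn : Fintype.card V = 2 * n) :
    ∃ S : Finset (Sym2 V), IsForcing M S ∧ S.card ≤ n ∧
      (n : ℝ) ^ 2 ≤ ((n - S.card : ℕ) : ℝ) * (G.edgeFinset.card : ℝ) := by
  classical
  -- the partner function
  have hex : ∀ v : V, ∃ w, M.Adj v w ∧ ∀ w', M.Adj v w' → w' = w := fun v => by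
    obtain ⟨w, hw, hu⟩ := hM.1 (hM.2 v)
    exact ⟨w, hw, fun w' hw' => hu w' hw'⟩
  choose m hm hmu using hex
  have hmm : ∀ v, m (m v) = v := fun v => (hmu (m v) v (hm v).symm).symm
  have hmne : ∀ v, m v ≠ v := fun v h => by
    have := (hm v).adj_sub
    rw [h] at this
    exact this.ne rfl
  have hminj : Function.Injective m := fun a b h => by rw [← hmm a, ← hmm b, h]
  -- a linear order on V
  let e := Fintype.equivFin V
  -- the set of representatives
  let X : Finset V := Finset.univ.filter
    (fun v => G.degree v < G.degree (m v) ∨ (G.degree v = G.degree (m v) ∧ e v < e (m v)))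
  have hX : ∀ v, v ∈ X ↔ (G.degree v < G.degree (m v) ∨
      (G.degree v = G.degree (m v) ∧ e v < e (m v))) := fun v => by simp [X]
  have hXm : ∀ v, m v ∈ X ↔ v ∉ X := by
    intro v
    rw [hX, hX, hmm]
    have hne : e v ≠ e (m v) := fun h => hmne v (e.injective h).symm
    rcases lt_trichotomy (G.degree v) (G.degree (m v)) with h | h | h
    · constructor
      · rintro (h' | h') <;> omega
      · intro h'; exact absurd (Or.inl h) h'
    · constructor
      · rintro (h' | ⟨_, h'⟩)
        · omega
        · rintro (h'' | ⟨_, h''⟩)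
          · omega
          · exact absurd h' (not_lt.2 h''.le)
      · intro h'
        right
        refine ⟨h.symm, ?_⟩
        push Not at h'
        exact lt_of_le_of_ne (h'.2 h) (Ne.symm hne)
    · constructor
      · rintro - (h' | h') <;> omega
      · intro _; exact Or.inl h
  have hXdeg : ∀ v ∈ X, G.degree v ≤ G.degree (m v) := by
    intro v hv
    rcases (hX v).1 hv with h | h
    · exact h.le
    · exact h.1.le
  have hXc : X.image m = Xᶜ := by
    ext v
    simp only [Finset.mem_image, Finset.mem_compl]
    constructor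
    · rintro ⟨w, hw, rfl⟩
      rw [hXm]; simpa using hw
    · intro hv
      exact ⟨m v, (hXm v).2 hv, hmm v⟩
  have hXcard : X.card = n := by
    have h1 : (X.image m).card = X.card := Finset.card_image_of_injective _ hminj
    have h2 := Finset.card_compl X
    rw [← hXc, h1, hn] at h2
    have h3 : X.card ≤ Fintype.card V := Finset.card_le_univ X
    omega
  -- the digraph
  let d : V → Finset V := fun x =>
    X.filter (fun y => y ≠ x ∧ (G.Adj x y ∨ G.Adj x (m y)))
  have hd : ∀ x ∈ X, (d x).card + 1 ≤ G.degree x := by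
    intro x hx
    let g : V → V := fun y => if G.Adj x y then y else m y
    have hginj : Set.InjOn g (d x) := by
      intro y hy z hz hyz
      have hy' := (Finset.mem_filter.1 (Finset.mem_coe.1 hy))
      have hz' := (Finset.mem_filter.1 (Finset.mem_coe.1 hz))
      simp only [g] at hyz
      split_ifs at hyz with h1 h2 h2
      · exact hyz
      · exfalso
        have := (hXm z).1 (hyz ▸ hy'.1)
        exact this hz'.1
      · exfalso
        have := (hXm y).1 (hyz.symm ▸ hz'.1)
        exact this hy'.1
      · exact hminj hyz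
    have hgsub : (d x).image g ⊆ (G.neighborFinset x).erase (m x) := by
      intro z hz
      obtain ⟨y, hy, rfl⟩ := Finset.mem_image.1 hz
      have hy' := (Finset.mem_filter.1 hy)
      rw [Finset.mem_erase, SimpleGraph.mem_neighborFinset]
      simp only [g]
      split_ifs with h1
      · refine ⟨?_, h1⟩
        rintro rfl
        exact (hXm x).1 hy'.1 hx
      · refine ⟨?_, ?_⟩
        · intro h
          exact hy'.2.1 (hminj h)
        · rcases hy'.2.2 with h | h
          · exact absurd h h1
          · exact h
    have h1 := Finset.card_le_card hgsub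
    rw [Finset.card_image_of_injOn hginj, Finset.card_erase_of_mem
      ((SimpleGraph.mem_neighborFinset _ _ _).2 (hm x).adj_sub)] at h1
    have h2 : 0 < (G.neighborFinset x).card :=
      Finset.card_pos.2 ⟨m x, (SimpleGraph.mem_neighborFinset _ _ _).2 (hm x).adj_sub⟩
    rw [← SimpleGraph.card_neighborFinset_eq_degree]
    omega
  obtain ⟨T, hTX, hgood, hsum⟩ := exists_good d X
  -- forcing
  have hforce : ∀ M' : G.Subgraph, M'.IsPerfectMatching → ∀ T : Finset V, Good d T → T ⊆ X →
      (∀ y ∈ X, y ∉ T → M'.Adj y (m y)) → ∀ y ∈ X, M'.Adj y (m y) := by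
    intro M' hM' T hT
    induction hT with
    | empty => intro _ h y hy; exact h y hy (Finset.notMem_empty _)
    | insert v T hv hdv hT ih =>
      intro hTX h
      apply ih (fun a ha => hTX (Finset.mem_insert_of_mem ha))
      intro y hyX hyT
      by_cases hyv : y = v
      · subst hyv
        obtain ⟨w, hw, huw⟩ := hM'.1 (hM'.2 y)
        by_cases hwm : w = m y
        · rw [← hwm]; exact hw
        exfalso
        have hGw : G.Adj y w := hw.adj_sub
        have hwy : w ≠ y := hGw.ne'
        -- the representative of w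
        obtain ⟨z, hzX, hz⟩ : ∃ z ∈ X, w = z ∨ w = m z := by
          by_cases hwX : w ∈ X
          · exact ⟨w, hwX, Or.inl rfl⟩
          · exact ⟨m w, (hXm w).2 hwX, Or.inr (hmm w).symm⟩
        have hzy : z ≠ y := by
          rintro rfl
          rcases hz with h' | h'
          · exact hwy h'
          · exact hwm h'
        have hzd : z ∈ d y := by
          simp only [d, Finset.mem_filter]
          refine ⟨hzX, hzy, ?_⟩
          rcases hz with h' | h'
          · left; rw [← h']; exact hGw
          · right; rw [← h']; exact hGw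
        have hzT : z ∉ T := Finset.disjoint_left.1 hdv hzd
        have hzi : z ∉ insert y T := by
          rw [Finset.mem_insert]; push Not; exact ⟨hzy, hzT⟩
        have hadj := h z hzX hzi
        rcases hz with h' | h'
        · subst h'
          obtain ⟨w', hw', hu'⟩ := hM'.1 (hM'.2 w)
          have e1 := hu' _ hadj
          have e2 := hu' _ hw.symm
          have : y = m w := by
            have : y = w' := e2
            rw [this]; exact e1.symm
          exact (hXm w).1 (this ▸ hyX) hzX
        · obtain ⟨w', hw', hu'⟩ := hM'.1 (hM'.2 w)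
          have e2 := hu' _ hw.symm
          have e1 := hu' z (by rw [h']; exact hadj.symm)
          exact hzy (by rw [show z = w' from e1, show y = w' from e2])
      · exact h y hyX (by rw [Finset.mem_insert]; push Not; exact ⟨hyv, hyT⟩)
  -- the forcing set
  let S : Finset (Sym2 V) := (X \ T).image (fun y => s(y, m y))
  have hSinj : Set.InjOn (fun y => s(y, m y)) (X \ T : Finset V) := by
    intro y hy z hz hyz
    have hy' := (Finset.mem_sdiff.1 (Finset.mem_coe.1 hy)).1
    have hz' := (Finset.mem_sdiff.1 (Finset.mem_coe.1 hz)).1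
    rcases Sym2.eq_iff.1 hyz with h | h
    · exact h.1
    · exfalso
      exact (hXm z).1 (h.1 ▸ hy') hz'
  have hScard : S.card = n - T.card := by
    rw [Finset.card_image_of_injOn hSinj, Finset.card_sdiff_of_subset hTX, hXcard]
  have hTn : T.card ≤ n := hXcard ▸ Finset.card_le_card hTX
  refine ⟨S, ⟨?_, ?_⟩, ?_, ?_⟩
  · intro x hx
    obtain ⟨y, _, rfl⟩ := Finset.mem_image.1 (Finset.mem_coe.1 hx)
    exact hm y
  · intro M' hM' hSM'
    have hall : ∀ y ∈ X, M'.Adj y (m y) := by
      apply hforce M' hM' T hgood hTX
      intro y hyX hyT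
      have : s(y, m y) ∈ S := Finset.mem_image.2 ⟨y, Finset.mem_sdiff.2 ⟨hyX, hyT⟩, rfl⟩
      exact hSM' (Finset.mem_coe.2 this)
    have hall' : ∀ y, M'.Adj y (m y) := by
      intro y
      by_cases hy : y ∈ X
      · exact hall y hy
      · have := hall (m y) ((hXm y).2 hy)
        rw [hmm] at this
        exact this.symm
    apply SimpleGraph.Subgraph.ext
    · ext v
      exact ⟨fun _ => hM.2 v, fun _ => hM'.2 v⟩
    · ext v w
      constructor
      · intro h
        obtain ⟨w', _, hu⟩ := hM'.1 (hM'.2 v)
        have : w = m v := by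
          rw [show w = w' from hu _ h, show m v = w' from hu _ (hall' v)]
        rw [this]; exact hm v
      · intro h
        rw [hmu v w h]; exact hall' v
  · rw [hScard]; omega
  · have hTS : n - S.card = T.card := by rw [hScard]; omega
    rw [hTS]
    -- n^2 ≤ T.card * e
    have hdegsum : ∑ x ∈ X, (G.degree x : ℝ) ≤ G.edgeFinset.card := by
      have h1 : ∑ v, (G.degree v : ℝ) = 2 * G.edgeFinset.card := by
        have := G.sum_degrees_eq_twice_card_edges
        exact_mod_cast this
      have h2 : ∑ v, (G.degree v : ℝ) = ∑ x ∈ X, (G.degree x : ℝ) + ∑ x ∈ Xᶜ, (G.degree x : ℝ) :=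
        (Finset.sum_add_sum_compl X _).symm
      have h3 : ∑ x ∈ Xᶜ, (G.degree x : ℝ) = ∑ x ∈ X, (G.degree (m x) : ℝ) := by
        rw [← hXc, Finset.sum_image (fun a _ b _ h => hminj h)]
      have h4 : ∑ x ∈ X, (G.degree x : ℝ) ≤ ∑ x ∈ X, (G.degree (m x) : ℝ) :=
        Finset.sum_le_sum (fun x hx => by exact_mod_cast hXdeg x hx)
      linarith
    have hpos : ∀ x ∈ X, (0 : ℝ) < G.degree x := by
      intro x hx
      have := hd x hx
      exact_mod_cast (by omega : 0 < G.degree x)
    have hinv : ∑ x ∈ X, (1 : ℝ) / (G.degree x) ≤ T.card := by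
      refine le_trans (Finset.sum_le_sum (fun x hx => ?_)) hsum
      apply one_div_le_one_div_of_le
      · exact add_pos_of_pos_of_nonneg one_pos (Nat.cast_nonneg _)
      · have h1 := hd x hx
        have h2 : (d x ∩ X).card ≤ (d x).card := Finset.card_le_card Finset.inter_subset_left
        have : ((1 + (d x ∩ X).card : ℕ) : ℝ) ≤ (G.degree x : ℝ) := by
          exact_mod_cast (by omega : 1 + (d x ∩ X).card ≤ G.degree x)
        push_cast at this
        exact this
    have hcs : ((n : ℝ)) ^ 2 ≤ (∑ x ∈ X, (1 : ℝ) / (G.degree x)) * ∑ x ∈ X, (G.degree x : ℝ) := by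
      have h := Finset.sq_sum_div_le_sum_sq_div X (fun _ => (1 : ℝ)) hpos
      simp only [one_pow, Finset.sum_const, nsmul_eq_mul, mul_one, hXcard] at h
      by_cases hXe : X.Nonempty
      · have hpos' : 0 < ∑ x ∈ X, (G.degree x : ℝ) := Finset.sum_pos hpos hXe
        rwa [div_le_iff₀ hpos'] at h
      · rw [Finset.not_nonempty_iff_eq_empty] at hXe
        rw [← hXcard, hXe]; simp
    calc (n : ℝ) ^ 2 ≤ _ := hcs
      _ ≤ (T.card : ℝ) * G.edgeFinset.card := by
        apply mul_le_mul hinv hdegsum
        · exact Finset.sum_nonneg (fun x hx => (hpos x hx).le)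
        · exact Nat.cast_nonneg _

end main

/-- Every graph `G` on `2 n` vertices (`n ≥ 1`) with a perfect matching satisfies
`F(G) < n` and `e(G) ≥ n ^ 2 / (n - F(G))`. -/
theorem result : ∀ (n : ℕ), 1 ≤ n → ∀ (G : SimpleGraph (Fin (2 * n))),
    (∃ M : G.Subgraph, M.IsPerfectMatching) →
      maxForcing G < n ∧
        (n : ℝ) ^ 2 / ((n : ℝ) - (maxForcing G : ℝ)) ≤ (G.edgeSet.ncard : ℝ) := by
  classical
  intro n hn G hex
  have hfin : {k | ∃ M : G.Subgraph, M.IsPerfectMatching ∧ forcingNumber M = k}.Finite := by
    have hsub : {k | ∃ M : G.Subgraph, M.IsPerfectMatching ∧ forcingNumber M = k}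
        ⊆ Set.range (fun M : G.Subgraph => forcingNumber M) := by
      rintro k ⟨M, _, rfl⟩; exact ⟨M, rfl⟩
    exact (Set.finite_range _).subset hsub
  have hne : {k | ∃ M : G.Subgraph, M.IsPerfectMatching ∧ forcingNumber M = k}.Nonempty := by
    obtain ⟨M, hM⟩ := hex
    exact ⟨_, M, hM, rfl⟩
  obtain ⟨M, hM, hF⟩ := Nat.sSup_mem hne hfin.bddAbove
  have hF' : forcingNumber M = maxForcing G := hF
  obtain ⟨S, hS, hSn, hineq⟩ := exists_forcing G M hM n (by simp)
  have hle : maxForcing G ≤ S.card := by
    rw [← hF']
    exact Nat.sInf_le ⟨S, hS, rfl⟩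
  have hn' : (0 : ℝ) < (n : ℝ) ^ 2 := by positivity
  have hSlt : S.card < n := by
    by_contra h
    have : n - S.card = 0 := by omega
    rw [this] at hineq
    have : (n : ℝ) ^ 2 ≤ 0 := by simpa using hineq
    linarith
  have hlt : maxForcing G < n := lt_of_le_of_lt hle hSlt
  refine ⟨hlt, ?_⟩
  have hcard : (G.edgeSet.ncard : ℝ) = G.edgeFinset.card := by
    rw [← SimpleGraph.coe_edgeFinset, Set.ncard_coe_finset]
  rw [hcard]
  have hpos : (0 : ℝ) < (n : ℝ) - (maxForcing G : ℝ) := by
    have : ((maxForcing G : ℕ) : ℝ) < n := by exact_mod_cast hlt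
    linarith
  rw [div_le_iff₀ hpos]
  refine hineq.trans ?_
  rw [mul_comm]
  apply mul_le_mul_of_nonneg_left _ (Nat.cast_nonneg _)
  rw [Nat.cast_sub hSn]
  have : ((maxForcing G : ℕ) : ℝ) ≤ S.card := by exact_mod_cast hle
  linarith

end Pool.Agent.Results.MP_f5b231_co.EdgeBound
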